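import Pool.Agent.helper61.YLower3
import Pool.Agent.helper61.YNullUp

set_option autoImplicit false

/-!
# The Yorioka ideals and the null ideal: `supcof = cof(N)` and `minadd = add(N)`

All definitions used by the statement are in `Pool.Agent.helper61.YDefs`.
-/

namespace Pool.Agent.Results.MP_cd6b71_lc.YoriokaEqualities

open H61.Yorioka MeasureTheory Set Cardinal

open scoped ENNReal

lemma null_down : ∀ A ∈ nullIdeal, ∀ B ⊆ A, B ∈ nullIdeal := fun _ hA _ hBA =>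
  measure_mono_null hBA hA

lemma yorioka_down (f : ℕ → ℕ) : ∀ A ∈ yoriokaIdeal f, ∀ B ⊆ A, B ∈ yoriokaIdeal f := by
  rintro A ⟨σ, h1, h2⟩ B hBA
  exact ⟨σ, h1, hBA.trans h2⟩

lemma limSet_null {f : ℕ → ℕ} (hf : StrictMono f) {τ : ℕ → List Bool} (hτ : FarBelow f (ht τ)) :
    cantorMeasure (limSet τ) = 0 := by
  classical
  obtain ⟨m, hm⟩ := hτ 1
  have h1 : cantorMeasure {x | ∀ k, ∃ n ≥ k, x ∈ (if m ≤ n then cyl (τ n) else ∅)} = 0 := by
    apply measure_io_zero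
    refine ne_top_of_le_ne_top ?_ (ENNReal.tsum_le_tsum (g := fun n => (2⁻¹ : ℝ≥0∞) ^ n) fun n => ?_)
    · rw [ENNReal.tsum_geometric]; simp
    · split_ifs with hn
      · rw [measure_cyl]
        apply pow_le_pow_of_le_one zero_le (by simp)
        have h2 := hm n hn
        rw [pow_one] at h2
        exact (hf.le_apply).trans h2
      · simp
  refine measure_mono_null ?_ h1
  intro x hx k
  obtain ⟨n, hn, hx'⟩ := mem_limSet_iff.mp hx (max k m)
  refine ⟨n, (le_max_left _ _).trans hn, ?_⟩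
  rw [if_pos ((le_max_right _ _).trans hn)]
  exact hx'

lemma univ_notMem_null : (Set.univ : Set (ℕ → Bool)) ∉ nullIdeal := by
  intro h
  have h1 : cantorMeasure Set.univ = 0 := h
  rw [measure_univ] at h1
  exact one_ne_zero h1

lemma univ_notMem_yorioka {f : ℕ → ℕ} (hf : StrictMono f) :
    (Set.univ : Set (ℕ → Bool)) ∉ yoriokaIdeal f := by
  rintro ⟨τ, h1, h2⟩
  apply univ_notMem_null
  exact measure_mono_null h2 (limSet_null hf h1)

lemma singleton_mem_yorioka {f : ℕ → ℕ} (hf : StrictMono f) (x : ℕ → Bool) :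
    ({x} : Set (ℕ → Bool)) ∈ yoriokaIdeal f := by
  refine ⟨fun n => res x (f (n ^ n)), ?_, ?_⟩
  · intro k
    refine ⟨k + 1, fun n hn => ?_⟩
    simp only [ht, res_length]
    apply hf.monotone
    exact Nat.pow_le_pow_right (by omega) (by omega)
  · rintro _ rfl
    exact mem_limSet_iff.mpr fun m => ⟨m, le_rfl, isInit_res _ _⟩

lemma singleton_mem_null (x : ℕ → Bool) : ({x} : Set (ℕ → Bool)) ∈ nullIdeal := by
  obtain ⟨σ, h1, h2⟩ := singleton_mem_yorioka strictMono_id x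
  exact measure_mono_null h2 (limSet_null strictMono_id h1)

lemma exists_not_union {I : Set (Set (ℕ → Bool))} (h1 : ∀ x, ({x} : Set (ℕ → Bool)) ∈ I)
    (h2 : Set.univ ∉ I) : ∃ J : Set (Set (ℕ → Bool)), J ⊆ I ∧ ⋃₀ J ∉ I := by
  refine ⟨Set.range (fun x => ({x} : Set (ℕ → Bool))), ?_, ?_⟩
  · rintro _ ⟨x, rfl⟩; exact h1 x
  · have : ⋃₀ Set.range (fun x => ({x} : Set (ℕ → Bool))) = Set.univ := by
      ext x
      simp
    rw [this]; exact h2

lemma lt_add_iff {I : Set (Set (ℕ → Bool))} (hdown : ∀ A ∈ I, ∀ B ⊆ A, B ∈ I)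
    (hex : ∃ J : Set (Set (ℕ → Bool)), J ⊆ I ∧ ⋃₀ J ∉ I) (κ : Cardinal.{0}) :
    κ < add I ↔ Bdd (IRel I) κ := by
  constructor
  · intro h F hF
    by_contra hcon
    push Not at hcon
    have h1 : ⋃₀ (Subtype.val '' F) ∈ I := by
      by_contra hno
      have h2 : add I ≤ #(Subtype.val '' F : Set (Set (ℕ → Bool))) := by
        apply csInf_le'
        refine ⟨Subtype.val '' F, ?_, hno, rfl⟩
        rintro _ ⟨A, -, rfl⟩; exact A.2
      exact absurd (h.trans_le (h2.trans (Cardinal.mk_image_le.trans hF))) (lt_irrefl _)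
    obtain ⟨A, hA, hA'⟩ := hcon ⟨_, h1⟩
    exact hA' (Set.subset_sUnion_of_mem ⟨A, hA, rfl⟩)
  · intro h
    by_contra hcon
    push Not at hcon
    have hne : {κ | ∃ J : Set (Set (ℕ → Bool)), J ⊆ I ∧ ⋃₀ J ∉ I ∧ κ = #J}.Nonempty := by
      obtain ⟨J, h1, h2⟩ := hex
      exact ⟨_, J, h1, h2, rfl⟩
    obtain ⟨J, h1, h2, h3⟩ := csInf_mem hne
    have h4 : #J ≤ κ := by
      rw [← h3]; exact hcon
    obtain ⟨B, hB⟩ := h {A | A.1 ∈ J} (by
      refine le_trans ?_ h4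
      exact Cardinal.mk_le_of_injective (f := fun A : {A : {A // A ∈ I} | A.1 ∈ J} =>
        (⟨A.1.1, A.2⟩ : J)) (fun A A' hAA => by
          have := congrArg Subtype.val hAA
          exact Subtype.ext (Subtype.ext this)))
    apply h2
    refine hdown B.1 B.2 _ ?_
    apply Set.sUnion_subset
    intro A hA
    exact hB ⟨A, h1 hA⟩ hA

lemma cof_le_iff {I : Set (Set (ℕ → Bool))} (κ : Cardinal.{0}) :
    cof I ≤ κ ↔ Dom (IRel I) κ := by
  constructor
  · intro h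
    have hne : {κ | ∃ J : Set (Set (ℕ → Bool)), J ⊆ I ∧ (∀ A ∈ I, ∃ B ∈ J, A ⊆ B) ∧
        κ = #J}.Nonempty := ⟨_, I, subset_rfl, fun A hA => ⟨A, hA, subset_rfl⟩, rfl⟩
    obtain ⟨J, h1, h2, h3⟩ := csInf_mem hne
    refine ⟨{A | A.1 ∈ J}, ?_, ?_⟩
    · refine le_trans ?_ (h3.ge.trans h)
      exact Cardinal.mk_le_of_injective (f := fun A : {A : {A // A ∈ I} | A.1 ∈ J} =>
        (⟨A.1.1, A.2⟩ : J)) (fun A A' hAA => by
          have := congrArg Subtype.val hAA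
          exact Subtype.ext (Subtype.ext this))
    · intro A
      obtain ⟨B, hB, hAB⟩ := h2 A.1 A.2
      exact ⟨⟨B, h1 hB⟩, hB, hAB⟩
  · rintro ⟨D, hD, hD'⟩
    refine le_trans (csInf_le' ⟨Subtype.val '' D, ?_, ?_, rfl⟩) (Cardinal.mk_image_le.trans hD)
    · rintro _ ⟨A, -, rfl⟩; exact A.2
    · intro A hA
      obtain ⟨B, hB, hAB⟩ := hD' ⟨A, hA⟩
      exact ⟨B.1, ⟨B, hB, rfl⟩, hAB⟩

lemma lt_add_null (κ : Cardinal.{0}) : κ < add nullIdeal ↔ Bdd (IRel nullIdeal) κ :=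
  lt_add_iff null_down (exists_not_union singleton_mem_null univ_notMem_null) κ

lemma lt_add_yorioka {f : ℕ → ℕ} (hf : StrictMono f) (κ : Cardinal.{0}) :
    κ < add (yoriokaIdeal f) ↔ Bdd (IRel (yoriokaIdeal f)) κ :=
  lt_add_iff (yorioka_down f) (exists_not_union (singleton_mem_yorioka hf)
    (univ_notMem_yorioka hf)) κ

/-- Cut a function down below `b = y + 1`. -/
def cut (y x : ℕ → ℕ) : {x : ℕ → ℕ // ∀ n, x n < y n + 1} :=
  ⟨fun n => if x n < y n + 1 then x n else 0, fun n => by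
    show (if x n < y n + 1 then x n else 0) < y n + 1
    split_ifs with h
    · exact h
    · omega⟩

lemma lc_of_cut {x y : ℕ → ℕ} {S : ℕ → ℕ → ℕ} (h : DRel x y) (hS : Lc Hw (cut y x).1 S) :
    Lc Hw x S := by
  obtain ⟨m, hm⟩ := h
  obtain ⟨k, hk⟩ := hS
  refine ⟨max m k, fun n hn => ?_⟩
  obtain ⟨c, hc, hc'⟩ := hk n ((le_max_right _ _).trans hn)
  refine ⟨c, hc, hc'.trans ?_⟩
  have := hm n ((le_max_left _ _).trans hn)
  exact if_pos (by omega)

lemma bdd_Lc {κ : Cardinal.{0}}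
    (h : ∀ f : ℕ → ℕ, StrictMono f → Bdd (IRel (yoriokaIdeal f)) κ) : Bdd (Lc Hw) κ := by
  intro F hF
  have hf := fastOf_fast (fun _ => 0)
  obtain ⟨y, hy⟩ := (tukey_dom hf).bdd (h _ hf.mono) F hF
  obtain ⟨S, hS⟩ := (tukey_loc (fun n => y n + 1)).bdd (h _ (fastOf_fast _).mono) (cut y '' F)
    (Cardinal.mk_image_le.trans hF)
  exact ⟨S, fun x hx => lc_of_cut (hy x hx) (hS _ ⟨x, hx, rfl⟩)⟩

lemma dom_Lc {κ : Cardinal.{0}}
    (h : ∀ f : ℕ → ℕ, StrictMono f → Dom (IRel (yoriokaIdeal f)) κ) : Dom (Lc Hw) κ := by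
  classical
  have hf := fastOf_fast (fun _ => 0)
  obtain ⟨D, hD, hD'⟩ := (tukey_dom hf).dom (h _ hf.mono)
  have hinf : ℵ₀ ≤ κ := by
    by_contra hcon
    push Not at hcon
    have hfin : D.Finite := Cardinal.lt_aleph0_iff_set_finite.mp (hD.trans_lt hcon)
    obtain ⟨y, hy, m, hm⟩ := hD' (fun n => (∑ y ∈ hfin.toFinset, y n) + 1)
    have h1 : (∑ y ∈ hfin.toFinset, y m) + 1 ≤ y m := hm m le_rfl
    have h2 := Finset.single_le_sum (f := fun y : ℕ → ℕ => y m) (fun i _ => Nat.zero_le _)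
      (hfin.mem_toFinset.mpr hy)
    omega
  have hE : ∀ y : ℕ → ℕ, ∃ E : Set (ℕ → ℕ → ℕ), #E ≤ κ ∧ ∀ x, ∃ S ∈ E, Lc Hw (cut y x).1 S := by
    intro y
    obtain ⟨E, hE, hE'⟩ := (tukey_loc (fun n => y n + 1)).dom (h _ (fastOf_fast _).mono)
    exact ⟨E, hE, fun x => hE' (cut y x)⟩
  choose E hE hE' using hE
  refine ⟨⋃ y ∈ D, E y, ?_, fun x => ?_⟩
  · refine (Cardinal.mk_biUnion_le _ _).trans ?_
    refine (mul_le_mul' hD (ciSup_le' fun y : D => hE y.1)).trans ?_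
    rw [Cardinal.mul_eq_self hinf]
  · obtain ⟨y, hy, hxy⟩ := hD' x
    obtain ⟨S, hS, hS'⟩ := hE' y x
    exact ⟨S, Set.mem_iUnion₂.mpr ⟨y, hy, hS⟩, lc_of_cut hxy hS'⟩

theorem add_eq : minadd = add nullIdeal := by
  apply eq_of_forall_lt_iff
  intro κ
  have hne : {κ | ∃ f : ℕ → ℕ, StrictMono f ∧ κ = add (yoriokaIdeal f)}.Nonempty :=
    ⟨_, id, strictMono_id, rfl⟩
  have h1 : κ < minadd ↔ ∀ f : ℕ → ℕ, StrictMono f → κ < add (yoriokaIdeal f) := by
    constructor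
    · intro h f hf
      exact h.trans_le (csInf_le' ⟨f, hf, rfl⟩)
    · intro h
      obtain ⟨f, hf, he⟩ := csInf_mem hne
      have h2 := h f hf
      rw [← he] at h2
      exact h2
  rw [h1, lt_add_null]
  constructor
  · intro h
    exact (tukey_null_Lc Hw).bdd (bdd_Lc fun f hf => (lt_add_yorioka hf κ).mp (h f hf))
  · intro h f hf
    exact (lt_add_yorioka hf κ).mpr ((tukey_yorioka_Lc hf H61.Yorioka.h1).bdd (tukey_Lc_null.bdd h))

theorem cof_eq : supcof = cof nullIdeal := by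
  apply eq_of_forall_ge_iff
  intro κ
  have hbdd : BddAbove {κ | ∃ f : ℕ → ℕ, StrictMono f ∧ κ = cof (yoriokaIdeal f)} := by
    have : {κ | ∃ f : ℕ → ℕ, StrictMono f ∧ κ = cof (yoriokaIdeal f)} =
        Set.range (fun f : {f : ℕ → ℕ // StrictMono f} => cof (yoriokaIdeal f.1)) := by
      ext κ
      constructor
      · rintro ⟨f, hf, rfl⟩; exact ⟨⟨f, hf⟩, rfl⟩
      · rintro ⟨f, rfl⟩; exact ⟨f.1, f.2, rfl⟩
    rw [this]
    exact Cardinal.bddAbove_of_small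
  have h2 : supcof ≤ κ ↔ ∀ f : ℕ → ℕ, StrictMono f → cof (yoriokaIdeal f) ≤ κ := by
    unfold supcof
    rw [csSup_le_iff' hbdd]
    constructor
    · intro h f hf; exact h _ ⟨f, hf, rfl⟩
    · rintro h _ ⟨f, hf, rfl⟩; exact h f hf
  rw [h2, cof_le_iff]
  constructor
  · intro h
    exact (tukey_null_Lc Hw).dom (dom_Lc fun f hf => (cof_le_iff κ).mp (h f hf))
  · intro h f hf
    exact (cof_le_iff κ).mpr ((tukey_yorioka_Lc hf H61.Yorioka.h1).dom (tukey_Lc_null.dom h))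

/-- **Answer to the question.** The supremum of the cofinalities of the Yorioka ideals equals the
cofinality of the null ideal, and the minimum of their additivities equals the additivity of the
null ideal. -/
theorem result : supcof = cof nullIdeal ∧ minadd = add nullIdeal := ⟨cof_eq, add_eq⟩

end Pool.Agent.Results.MP_cd6b71_lc.YoriokaEqualities
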